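import Pool.Agent.helper90.DHI.AllI
import Pool.Agent.helper43.DHB.All
import Pool.Agent.helper48.DH.AllY
import Pool.Agent.helper81.DH.FIN
import Pool.Agent.helper24.DH.FML
import Pool.Agent.helper40.DH.FLD
import Pool.Agent.helper55.DH.FSP
import Pool.Agent.helper76.DH.FCH
import Pool.Agent.helper76.DH.FNU
import Pool.Agent.helper88.DH.FVB
import Pool.Agent.helper81.DH.ZAll

set_option autoImplicit false

open Filter Topology MeasureTheory
open scoped commutatorElement

namespace Pool.Agent.helper90.DH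

open Pool.Agent.helper64.D2

theorem AllF_FIN : FIN_stmt :=
  FIN AllY_YGEN AllM_BDD AllM_RES AllM_CID AllM_FST (RAT BAS) SZC (FVB LBM LEA LEB) FML (FLD FML) (FSP SZC) (FCH SZC) FNU

/-- The stage theorem from the routing. -/
theorem AllF_MAINH (hROU : ROU_stmt) (hRLC : RLC_stmt) (hRST : RST_stmt) : MAINH_stmt :=
  AllI_MAINH BAT_all PERT_all GALL_all hROU hRLC hRST AllY_YGEN AllY_YIN AllF_FIN

theorem AllF_S (hROU : ROU_stmt) (hRLC : RLC_stmt) (hRST : RST_stmt) : Pool.Agent.helper48.DH.S_stmt :=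
  M5Z.S_of_MAINH (AllF_MAINH hROU hRLC hRST)

end Pool.Agent.helper90.DH
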