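import Pool.Agent.helper90.DH.SpecI

set_option autoImplicit false

open Filter Topology MeasureTheory
open scoped commutatorElement

namespace Pool.Agent.helper90.DH

open Pool.Agent.helper64.D2

theorem END (hSJM : SJM_stmt) (hDRF : DRF_stmt) (hESI : ESI_stmt) : END_stmt := by
  intro κ B n0 hκ hF n c a hn haκ haB haA haρ hSP hnum G0 Z p p' j x hj hMH hay hYH hcl hEs hmod hx hRT hFL
  have hs0 : a.ρ ^ 2 = s0n n := by rw [haρ]; rfl
  have hq : a.ρ ^ 4 = qn n := by rw [haρ]; rfl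
  have hNB := hSP.2.2.2.2.2.2.2.2.2.1
  have hw0 := hSP.2.2.2.2.2.2.2.1
  have h1000 : 1000 * (3 * a.w0 * 2 ^ a.w0 + 10 * a.w0 + 1) ≤ a.ρ ^ 2 := by
    have := hNB.2.2.2
    refine le_trans (Nat.mul_le_mul_left _ (by omega)) this
  have h1000' : 1000 ≤ a.ρ ^ 2 := by
    exact le_trans (Nat.le_mul_of_pos_right 1000 (Nat.succ_pos _)) h1000
  have hρpos : (0 : ℝ) < (a.ρ : ℝ) := by
    have : 0 < a.ρ := by
      rcases Nat.eq_zero_or_pos a.ρ with h | h
      · rw [h] at h1000'; norm_num at h1000'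
      · exact h
    exact_mod_cast this
  obtain ⟨hS1, hS2, hS3, hS4, hS5, hS6, hS7⟩ := hSJM (a.ρ ^ 2) h1000'
  obtain ⟨hD1, hD2, hD3, hD4, hD5⟩ := hDRF a.w0 (a.ρ ^ 2) h1000
  obtain ⟨cm', D', hAGR, hcm', hROK, hWH, hsum, hload⟩ := hRT j x hx le_rfl
  obtain ⟨⟨hQ, hR, hC, hHIS, hFLa, hGLa⟩, hY, -, hcm, hWHo⟩ := hx
  obtain ⟨-, hcl2⟩ := hFL j x.cm cm' x.D D' x.Y x.G x.Q x.R le_rfl hQ hR hFLa (fun i hi => (hGLa i hi).1) hY hAGR hWHo hWH
  have hcl3 := hcl2 hj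
  have hN : s0n n ≤ sj (a.ρ ^ 2) (j + 1) := by rw [← hs0]; exact hS1 _
  have hcast : ((qn n : ℕ) : ℝ) = (a.ρ : ℝ) ^ 4 := by rw [← hq]; push_cast; ring
  refine hF n hn c G0 Z a.y p p' (sj (a.ρ ^ 2) (j + 1)) (sj (a.ρ ^ 2) (j + 1) + sj (a.ρ ^ 2) (j + 1) / 8 + 2)
    (fun i s k => rwt (a.rp cm') D' s i k) x.G x.Q x.R x.Y (2 ^ (sj (a.ρ ^ 2) j + sj (a.ρ ^ 2) j / 8)) hMH hN (by omega) hay hYH hcl hEs hmod
    ?_ ?_ ?_ ?_ ?_ ?_ ?_ ?_
  · intro i hi
    have := hWH i (by rw [hq]; exact hi)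
    unfold WHa at this
    rw [hq, hs0, haB] at this
    rw [hs0]
    exact this
  · intro z
    have h := hsum z
    unfold vr at h
    rw [hESI _ _ hYH.1 z] at h
    rw [← hq, ← hs0]
    exact h
  · intro i hi
    have h := (hGLa i (by rw [hq]; exact hi)).1
    intro z
    refine le_trans (h z) (le_trans (hD3 _).2 ?_)
    rw [hcast]
    rw [← haρ] at hnum
    rw [div_le_div_iff₀ (by positivity) (by positivity)]
    linarith
  · rw [← hq]; exact hQ
  · rw [← hq]; exact hR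
  · have h := hFLa
    unfold FLa at h
    rw [hq, haA, haB] at h
    have e : (1 : ℝ) / ((qn n : ℕ) : ℝ) ^ 2 = 1 / (a.ρ : ℝ) ^ 8 := by rw [hcast]; ring
    rw [e]
    exact h
  · intro h hh1 hh2 i hi z
    have := hcl3 h hh1 hh2 i (by rw [hq]; exact hi) z
    unfold vr at this
    rw [haκ, haA] at this
    rw [← hq, ← hs0]
    exact this
  · intro cc hcc t ht z
    have := hload cc (fun i hi z' => by
      rw [hC i hi]
      exact hcc i (by rw [← hq]; exact hi) z') t ht z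
    unfold vr at this
    rw [← hq, ← hs0]
    exact this

end Pool.Agent.helper90.DH
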