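import Pool.Agent.helper90.DH.SpecI

set_option autoImplicit false

open Filter Topology MeasureTheory
open scoped commutatorElement

namespace Pool.Agent.helper90.DH

open Pool.Agent.helper64.D2

theorem HYV_near (q : ℕ) (c : ℕ → DD) (s s' σ m0 : ℕ) (h : s ≤ s') (H : SLV q c s' σ m0) : SLV q c s σ m0 := by
  intro y hy
  refine le_trans (Finset.card_le_card ?_) (H y hy)
  intro i hi
  simp only [near, Finset.mem_filter] at hi ⊢
  refine ⟨hi.1, ?_⟩
  obtain ⟨k, hk⟩ := hi.2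
  refine ⟨k * 2 ^ (s' - s), ?_⟩
  have e : (((k * 2 ^ (s' - s) : ℤ)) : ℝ) / 2 ^ s' = (k : ℝ) / 2 ^ s := by
    have h1 : (2 : ℝ) ^ s' = 2 ^ (s' - s) * 2 ^ s := by rw [← pow_add]; congr 1; omega
    push_cast
    rw [h1]
    field_simp
  rw [e]
  exact hk

theorem HYV (hSJM : SJM_stmt) (hDRF : DRF_stmt) (hSPM : SPM_stmt) : HYV_stmt := by
  intro K0 a hSP hGPc j cs cm hH hcm
  have hNB := hSP.2.2.2.2.2.2.2.2.2.1
  have hw0 := hSP.2.2.2.2.2.2.2.1
  have h1000 : 1000 * (3 * a.w0 * 2 ^ a.w0 + 10 * a.w0 + 1) ≤ a.ρ ^ 2 := by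
    have := hNB.2.2.2
    refine le_trans (Nat.mul_le_mul_left _ (by omega)) this
  have h1000' : 1000 ≤ a.ρ ^ 2 := by
    exact le_trans (Nat.le_mul_of_pos_right 1000 (Nat.succ_pos _)) h1000
  have hbig : 10 * (a.w0 + a.ac) + 100 ≤ a.ρ ^ 2 / 4 := by
    have := hNB.2.2.2
    have h2 : 1000 * (10 * a.w0 + (1 + a.ac + 1)) ≤ a.ρ ^ 2 := le_trans (Nat.mul_le_mul_left _ (by omega)) this
    omega
  obtain ⟨s0, hs0⟩ : ∃ s0 : ℕ, s0 = a.ρ ^ 2 := ⟨_, rfl⟩
  rw [← hs0] at h1000 h1000' hbig hcm ⊢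
  obtain ⟨hS1, hS2, hS3, hS4, hS5, hS6, hS7⟩ := hSJM s0 h1000'
  obtain ⟨hD1, hD2, hD3, hD4, hD5⟩ := hDRF a.w0 s0 h1000
  have hex : ∀ s : ℕ, ∃ b : ℕ, s < sj s0 (b + 1) := fun s => ⟨s, by have := hS6 (s + 1); omega⟩
  classical
  let b : ℕ → ℕ := fun s => Nat.find (hex s)
  have hb1 : ∀ s, s < sj s0 (b s + 1) := fun s => Nat.find_spec (hex s)
  have hb2 : ∀ s, s0 ≤ s → sj s0 (b s) ≤ s := by
    intro s hs
    rcases Nat.eq_zero_or_pos (b s) with h | h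
    · rw [h]; exact hs
    · have := Nat.find_min (hex s) (m := b s - 1) (by show b s - 1 < b s; omega)
      rw [not_lt, Nat.sub_add_cancel h] at this
      exact this
  have hb3 : ∀ s k, s0 ≤ s → s < sj s0 (k + 1) → b s ≤ k := fun s k _ h => Nat.find_min' (hex s) h
  have hb4 : ∀ s s', s ≤ s' → b s ≤ b s' := fun s s' h => Nat.find_min' (hex s) (lt_of_le_of_lt h (hb1 s'))
  have hb5 : ∀ s k, sj s0 k ≤ s → s < sj s0 (k + 1) → b s = k := by
    intro s k h1 h2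
    have h3 := hb3 s k (le_trans (hS1 k) h1) h2
    rcases Nat.lt_or_ge (b s) k with h | h
    · exfalso
      have h4 := hb1 s
      have h5 := hS5 (b s + 1) k h
      omega
    · omega
  have hσm : ∀ t t', t ≤ t' → sj s0 (t + 1) + sj s0 (t + 1) / 8 ≤ sj s0 (t' + 1) + sj s0 (t' + 1) / 8 := by
    intro t t' h
    have h5 := hS5 (t + 1) (t' + 1) (by omega)
    omega
  refine ⟨fun s => sj s0 (b s + 1) + sj s0 (b s + 1) / 8, ?_, ?_⟩
  · intro s h1 h2
    show sj s0 (b s + 1) + sj s0 (b s + 1) / 8 = _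
    rw [hb5 s j h1 h2]
  intro S hS hS'
  refine ⟨?_, ?_⟩
  · intro s hs hsS
    have hbj : b s ≤ j := hb3 s j hs (by omega)
    have hcms : cm s = cs (b s + 1) := hcm (b s) hbj s (hb2 s hs) (hb1 s)
    obtain ⟨⟨hB1, hB2, hB3⟩, hmp⟩ := hH (b s + 1) (by omega)
    rw [← hs0] at hB1 hB2 hB3
    rw [hcms]
    refine ⟨?_, ?_, ?_, ?_⟩
    · intro i hi
      obtain ⟨h1, h2, h3⟩ := hmp i hi
      refine ⟨h1, fun x => ?_⟩
      have h4 := h2 x
      rw [← hs0] at h4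
      refine le_trans h4 (le_trans (hD2 _ _) ?_)
      have e : (2 : ℝ) ^ s0 = 2 ^ (s0 - a.w0) * 2 ^ a.w0 := by rw [← pow_add]; congr 1; omega
      rw [e, pow_add, div_le_div_iff₀ (by positivity) (by positivity)]
      nlinarith [pow_pos (two_pos : (0:ℝ) < 2) (s0 - a.w0), pow_pos (two_pos : (0:ℝ) < 2) a.w0,
        mul_pos (pow_pos (two_pos : (0:ℝ) < 2) (s0 - a.w0)) (pow_pos (two_pos : (0:ℝ) < 2) a.w0)]
    · show s + 1 + (s + 1) / 8 ≤ sj s0 (b s + 1) + sj s0 (b s + 1) / 8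
      have := hb1 s
      omega
    · show SLV _ _ (s + 1) (sj s0 (b s + 1) + sj s0 (b s + 1) / 8) _
      exact HYV_near _ _ _ _ _ _ (hb1 s) (hB3 (by omega))
    · intro s' h1 h2
      have hT := hSPM.2.2 a.KB a.th a.δ a.m0 a.w0 a.ρ (j + 1) (b s + 1) cs (by omega) hH
      refine hGPc (b s + 1) cs hT s' (by rw [← hs0]; exact h1) ?_
      rw [← hs0]
      have h3 := hb1 s
      have h4 := hS7 (b s + 1)
      omega
  · intro s s' hs hss' hs'S
    have hbs := hb4 s s' hss'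
    refine ⟨hσm _ _ hbs, ?_⟩
    intro i hi x
    have hbj : b s' ≤ j := hb3 s' j (le_trans hs hss') (by omega)
    have hcms : cm s = cs (b s + 1) := hcm (b s) (by omega) s (hb2 s hs) (hb1 s)
    have hcms' : cm s' = cs (b s' + 1) := hcm (b s') hbj s' (hb2 s' (le_trans hs hss')) (hb1 s')
    rw [hcms, hcms']
    obtain ⟨-, hmp⟩ := hH (b s + 1) (by omega)
    obtain ⟨h1, h2, h3⟩ := hmp i hi
    rcases Nat.eq_or_lt_of_le hbs with h | h
    · rw [← h, sub_self, abs_zero]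
      positivity
    · have h4 := h3 (b s' + 1) (by omega) (by omega) x
      rw [← hs0] at h4
      refine le_trans h4 (le_trans (hD1 _ _ _) ?_)
      have h5 := (hD4 (b s + 1) (b s + 1) (i % 2 ^ a.w0) le_rfl).1
      have h6 : sj s0 (b s + 1) + sj s0 (b s + 1) / 8 + 2 + 2 ≤ sj s0 (b s + 1 + 1) := by
        show _ ≤ sj s0 (b s + 1) + sj s0 (b s + 1) / 4
        have := hS1 (b s + 1)
        omega
      show _ ≤ (1 : ℝ) / 2 ^ (sj s0 (b s + 1) + sj s0 (b s + 1) / 8 + 2)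
      have h7 : (2 : ℝ) ^ (sj s0 (b s + 1) + sj s0 (b s + 1) / 8 + 2) * 4 ≤ 2 ^ amp a.w0 s0 (b s + 1 + 1) (i % 2 ^ a.w0) := by
        have : (4 : ℝ) = 2 ^ 2 := by norm_num
        rw [this, ← pow_add]
        exact pow_le_pow_right₀ (by norm_num) (by omega)
      rw [div_le_div_iff₀ (by positivity) (by positivity)]
      nlinarith [pow_pos (two_pos : (0:ℝ) < 2) (sj s0 (b s + 1) + sj s0 (b s + 1) / 8 + 2)]

end Pool.Agent.helper90.DH
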