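import Pool.Agent.helper90.DH.SpecI

set_option autoImplicit false

open Filter Topology MeasureTheory
open scoped commutatorElement

namespace Pool.Agent.helper90.DH

open Pool.Agent.helper64.D2

theorem IST (hSJM : SJM_stmt) : IST_stmt := by
  intro a N h1000 hRT hFL hBT j x hx hj
  obtain ⟨hS1, hS2, hS3, hS4, hS5, hS6, hS7⟩ := hSJM (a.ρ ^ 2) h1000
  obtain ⟨cm', D', hAGR, hcm', hROK, hWH, -, -⟩ := hRT j x hx hj
  obtain ⟨⟨hQ, hR, hC, hHIS, hFLa, hGLa⟩, hY, -, hcm, hWHo⟩ := hx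
  obtain ⟨⟨Q', R', hQ', hR', hF', hcl⟩, -⟩ := hFL j x.cm cm' x.D D' x.Y x.G x.Q x.R hj hQ hR hFLa (fun i hi => (hGLa i hi).1) hY hAGR hWHo hWH
  obtain ⟨cs', G', R'', hcs', hM⟩ := hBT j x.cs (fun i => YF a cm' D' (j + 1) i) Q' x.G R' hQ' hR' hHIS hF' hGLa (fun i hi z => by
    rw [hC i hi]; exact hcl i hi z)
  refine ⟨⟨cs', cm', D', fun i => YF a cm' D' (j + 1) i, Q', G', R''⟩, hM, fun i _ => rfl, hROK, ?_, fun _ => hWH⟩
  intro j' hj' s hs1 hs2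
  show cm' s = cs' (j' + 1)
  rw [hcs' (j' + 1) (by omega)]
  rcases Nat.lt_or_ge j' j with h | h
  · have h1 : s < sj (a.ρ ^ 2) j := lt_of_lt_of_le hs2 (hS5 _ _ h)
    rw [← (hAGR s h1).1]
    exact hcm j' h s hs1 hs2
  · have h2 : j' = j := by omega
    rw [h2] at hs1 ⊢
    exact hcm' s hs1

end Pool.Agent.helper90.DH
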