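import Pool.Agent.helper90.DH.SpecI

set_option autoImplicit false

open Filter Topology MeasureTheory
open scoped commutatorElement

namespace Pool.Agent.helper90.DH

open Pool.Agent.helper64.D2

theorem MNH (hBPE : BPE_stmt) (hKRE : KRE_stmt) (hBAT : BAT_stmt) (hPERT : PERT_stmt) (hGALL : GALL_stmt) (hROU : ROU_stmt) (hSJM : SJM_stmt) (hNUM : NUM_stmt)
    (hNNM : NNM_stmt) (hGPH : GPH_stmt) (hSPM : SPM_stmt) (hBTS : BTS_stmt) (hINI : INI_stmt) (hRTB : RTB_stmt) (hFLS : FLS_stmt) (hIST : IST_stmt)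
    (hEND : END_stmt) (hYIN : YIN_stmt) (hFIN : FIN_stmt) : MNH_stmt := by
  obtain ⟨β, hβ⟩ := hBPE
  obtain ⟨κ, hκ⟩ := hKRE
  obtain ⟨KB, m0, wK, hKB, hBAT1⟩ := hBAT β hβ
  obtain ⟨KP, hKP, hP⟩ := hPERT
  obtain ⟨KG, hKG, hG⟩ := hGALL
  have hK0 : 1 ≤ KG * (KB + 2 * KP + 1) := by nlinarith
  obtain ⟨ac, w1, δ', B0, hδ', hB0, hLL, hROU1⟩ := hROU (KG * (KB + 2 * KP + 1)) m0 hK0
  obtain ⟨C1, hC1⟩ := hBTS β hβ
  obtain ⟨C2, hC2⟩ := hINI β hβ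
  obtain ⟨C3, hC3⟩ := hFLS κ hκ
  obtain ⟨C, hC⟩ : ∃ C : ℕ, C = C1 + C2 + C3 + 1 := ⟨_, rfl⟩
  obtain ⟨w0, hw0⟩ : ∃ w0 : ℕ, w0 = wK + w1 + 2 := ⟨_, rfl⟩
  obtain ⟨th, ρ0, hth, hBAT2⟩ := hBAT1 w0 (by omega)
  obtain ⟨q0, hROU2⟩ := hROU1 w0 (by omega)
  obtain ⟨ρ1, hNUM1⟩ := hNUM (C + ac + 1) w0
  obtain ⟨c, n1, hYIN1⟩ := hYIN
  obtain ⟨n2, hFIN1⟩ := hFIN κ B0 hκ hB0
  have hδ : 0 < min δ' (1 / 1000) := lt_min hδ' (by norm_num)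
  obtain ⟨n3, hn3⟩ := hNNM (C + ρ0 + ρ1 + q0 + 1) B0 (min δ' (1 / 1000)) hδ
  refine ⟨n1 + n2 + n3, c, fun n hn G0 Z p p' hMH => ?_⟩
  obtain ⟨hM, hMδ, hnum⟩ := hn3 n (by omega)
  obtain ⟨ρ, hρ⟩ : ∃ ρ : ℕ, ρ = rn n := ⟨_, rfl⟩
  rw [← hρ] at hM hMδ hnum
  have hρ1 : 1 ≤ ρ := by omega
  have hρ2 : ρ ≤ ρ ^ 2 := by nlinarith
  have hρ4 : ρ ≤ ρ ^ 4 := by
    calc ρ = ρ ^ 1 := (pow_one ρ).symm
      _ ≤ ρ ^ 4 := Nat.pow_le_pow_right hρ1 (by norm_num)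
  have hs0 : s0n n = ρ ^ 2 := by rw [hρ]; rfl
  have hNB := hNUM1 ρ (by omega)
  have h1000 : 1000 ≤ ρ ^ 2 := by
    have := hNB.2.2.2
    nlinarith [Nat.zero_le (3 * w0 * 2 ^ w0 + 10 * w0 + (C + ac))]
  obtain ⟨N1, hN1, hY⟩ := hYIN1 n (by omega) G0 Z p p' hMH (sj (ρ ^ 2) 2)
  obtain ⟨hS1, hS2, hS3, hS4, hS5, hS6, hS7⟩ := hSJM (ρ ^ 2) h1000
  have hN : N1 ≤ sj (ρ ^ 2) (N1 + 2) := by
    have := hS6 (N1 + 2)
    omega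
  obtain ⟨hYH, hcl, hEs, hmod⟩ := hY _ hN
  obtain ⟨a, ha⟩ : ∃ a : SP, a = ⟨κ, KB, th, min δ' (1 / 1000), B0, 5 / 2 ^ n, m0, w0, ac, ρ, Es (sj (ρ ^ 2) (N1 + 2)) (fun x => d2 Z x / (5 / 2 ^ n))⟩ := ⟨_, rfl⟩
  have hA : (0 : ℝ) < 5 / 2 ^ n := by positivity
  have hpos : (0 : ℝ) ≤ (5 / 2 ^ n) * B0 + 1 / (ρ : ℝ) := by
    have : (0 : ℝ) ≤ B0 := by linarith
    positivity
  have hSP : SPok C a := by
    rw [ha]
    refine ⟨hκ, hKB, hth, hδ, min_le_right _ _, hB0, hA, by show 2 ≤ w0; omega, hLL w0 (by omega), hNB, ?_⟩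
    refine le_trans ?_ hMδ
    show (C : ℝ) * ((5 / 2 ^ n) * B0 + 1 / (ρ : ℝ)) ≤ _
    refine mul_le_mul_of_nonneg_right ?_ hpos
    exact_mod_cast (by omega : C ≤ C + ρ0 + ρ1 + q0 + 1)
  have hSP1 : SPok 1 a := hSPM.1 1 C a (by omega) hSP
  have hB : BATc β a.KB a.m0 a.w0 a.th a.ρ := by
    rw [ha]
    exact hBAT2 ρ (by omega)
  have hGPc : GPc (KG * (KB + 2 * KP + 1)) a := by
    intro T cs hH s h1 h2
    have hw : a.w0 = w0 := by rw [ha]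
    have hKBa : a.KB = KB := by rw [ha]
    have hra : a.ρ = ρ := by rw [ha]
    rw [hw, hKBa, hra] at hH
    rw [hra] at h1 h2 ⊢
    rw [hw]
    refine hGPH KB KP KG hKB hKP hKG hP hG a.th a.δ a.m0 w0 ρ T cs (by omega) ?_ ?_ hH s h1 h2
    · have : a.δ = min δ' (1 / 1000) := by rw [ha]
      rw [this]
      exact le_trans (min_le_right _ _) (by norm_num)
    · obtain ⟨g1, g2, g3, g4⟩ := hNB
      refine ⟨g1, by omega, le_trans ?_ g3, le_trans ?_ g4⟩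
      · exact Nat.mul_le_mul_right _ (Nat.mul_le_mul_right _ (by omega))
      · exact Nat.mul_le_mul_left _ (by omega)
  have hRO : ROUc (KG * (KB + 2 * KP + 1)) a.m0 a.w0 a.ac a.δ a.B0 (a.ρ ^ 4) (a.ρ ^ 2) := by
    refine hSPM.2.1 _ _ _ _ a.δ δ' _ _ _ (by rw [ha]; exact min_le_left _ _) ?_
    rw [ha]
    exact hROU2 (ρ ^ 4) (ρ ^ 2) (by omega) (by omega)
  have hYH' : YH (sj (ρ ^ 2) (N1 + 2)) (a.ρ ^ 2) (p - 1 / 2 ^ s0n n) (p' + 1 / 2 ^ s0n n) a.y := by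
    rw [ha]
    show YH (sj (ρ ^ 2) (N1 + 2)) (ρ ^ 2) (p - 1 / 2 ^ s0n n) (p' + 1 / 2 ^ s0n n) _
    rw [← hs0]
    rw [← hs0] at hYH
    exact hYH
  have hRT := hRTB _ a hSP1 hGPc hRO _ _ _ hYH'
  have hFL := hC3 a (by rw [ha]) (hSPM.1 C3 C a (by omega) hSP) _ _ _ hYH'
  have hBT := hC1 a (hSPM.1 C1 C a (by omega) hSP) hB
  have hra : a.ρ = ρ := by rw [ha]
  have key : ∀ j : ℕ, j ≤ N1 + 2 → ∃ x : ST, INV a j x := by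
    intro j
    induction j with
    | zero => exact fun _ => hC2 a (hSPM.1 C2 C a (by omega) hSP) hB
    | succ j ih =>
      intro hj
      obtain ⟨x, hx⟩ := ih (by omega)
      refine hIST a _ (by rw [hra]; exact h1000) hRT hFL hBT j x hx ?_
      rw [hra]
      exact hS5 _ _ hj
  obtain ⟨x, hx⟩ := key (N1 + 1) (by omega)
  have hNe : sj (ρ ^ 2) (N1 + 2) = sj (a.ρ ^ 2) (N1 + 1 + 1) := by rw [hra]
  rw [hNe] at hRT hFL hYH' hmod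
  refine hEND κ B0 n2 hκ hFIN1 n c a (by omega) (by rw [ha]) (by rw [ha]) (by rw [ha]) (by rw [hra]; exact hρ) hSP1 ?_ G0 Z p p' (N1 + 1) x (by omega) hMH ?_ ?_ ?_ ?_ hmod hx hRT hFL
  · rw [← hρ]; exact hnum
  · rw [ha]
  · have : s0n n = a.ρ ^ 2 := by rw [hra]; exact hs0
    rw [← this] at hYH'
    rw [← this]
    exact hYH'
  · rw [ha]; exact hcl
  · rw [ha]; exact hEs

end Pool.Agent.helper90.DH
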