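import Pool.Agent.helper90.DH.SpecI

set_option autoImplicit false

open Filter Topology MeasureTheory
open scoped commutatorElement

namespace Pool.Agent.helper90.DH

open Pool.Agent.helper64.D2

theorem SPH (hSJM : SJM_stmt) : SPH_stmt := by
  intro th w0 ρ T cs c hNB hth hspr hcl r k hr hk p E hp hE hinj
  have h1000 : 1000 ≤ ρ ^ 2 := by
    have := hNB.2.2.2
    omega
  obtain ⟨hS1, hS2, hS3, hS4, hS5, hS6, hS7⟩ := hSJM (ρ ^ 2) h1000
  rcases Nat.eq_zero_or_pos k with h0 | h0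
  · have hEe : E = ∅ := by
      rw [Finset.eq_empty_iff_forall_notMem]
      intro e he
      have := (hE e he).2.1
      omega
    rw [hEe, h0]
    simp
  · have hρ : 1 ≤ ρ := by
      rcases Nat.eq_zero_or_pos ρ with h | h
      · rw [h] at h1000; norm_num at h1000
      · exact h
    have hbu : r ≤ sj (ρ ^ 2) (T + 1) / 4 := by
      unfold bu at hr
      rw [if_neg (Nat.succ_ne_zero T)] at hr
      exact hr
    have hr2 : 2 * ρ ^ 3 ≤ r := by
      refine le_trans ?_ hk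
      have := Nat.mul_le_mul_right (ρ ^ 3) h0
      nlinarith
    have h23 : ρ ^ 2 ≤ ρ ^ 3 := Nat.pow_le_pow_right hρ (by norm_num)
    have hs1 : sj (ρ ^ 2) 1 ≤ r := by
      show ρ ^ 2 + ρ ^ 2 / 4 ≤ r
      omega
    -- the largest t' with sj (t'+1) ≤ r
    classical
    obtain ⟨t', ht1, ht2⟩ : ∃ t', sj (ρ ^ 2) (t' + 1) ≤ r ∧ r < sj (ρ ^ 2) (t' + 2) := by
      have hex : ∃ b : ℕ, r < sj (ρ ^ 2) (b + 2) := ⟨r, by have := hS6 (r + 2); omega⟩
      refine ⟨Nat.find hex, ?_, Nat.find_spec hex⟩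
      rcases Nat.eq_zero_or_pos (Nat.find hex) with h | h
      · rw [h]; exact hs1
      · have := Nat.find_min hex (m := Nat.find hex - 1) (by omega)
        rw [not_lt] at this
        have e : Nat.find hex - 1 + 2 = Nat.find hex + 1 := by omega
        rw [e] at this
        exact this
    have htT : t' ≤ T := by
      by_contra hcon
      have h1 := hS5 (T + 1) (t' + 1) (by omega)
      have h2 := hS1 (T + 1)
      omega
    have hk2 : k * ρ ^ 3 ≤ sj (ρ ^ 2) (t' + 1) := by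
      have h1 := hS4 (t' + 1)
      have h2 : 2 * (k * ρ ^ 3) ≤ r := by rw [← mul_assoc]; exact hk
      have h3 : sj (ρ ^ 2) (t' + 1 + 1) = sj (ρ ^ 2) (t' + 2) := rfl
      omega
    refine hspr t' htT k hk2 p E hp ?_ hinj
    intro e he
    obtain ⟨e1, e2, e3, e4⟩ := hE e he
    refine ⟨e1, e2, e3, ?_⟩
    have h5 := hcl t' htT e.1 e1 (p e.2.1)
    have h6 : (4 : ℝ) / 2 ^ r ≤ 4 / 2 ^ sj (ρ ^ 2) (t' + 1) := by
      apply div_le_div_of_nonneg_left (by norm_num) (by positivity)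
      exact pow_le_pow_right₀ (by norm_num) ht1
    have h7 : |ev (cs t' e.1) (p e.2.1) - p e.2.2| ≤ |ev (c e.1) (p e.2.1) - ev (cs t' e.1) (p e.2.1)| + |ev (c e.1) (p e.2.1) - p e.2.2| := by
      rw [abs_sub_comm (ev (c e.1) (p e.2.1)) (ev (cs t' e.1) (p e.2.1))]
      have : ev (cs t' e.1) (p e.2.1) - p e.2.2 = (ev (cs t' e.1) (p e.2.1) - ev (c e.1) (p e.2.1)) + (ev (c e.1) (p e.2.1) - p e.2.2) := by ring
      rw [this]
      exact abs_add_le _ _
    have h8 : (8 : ℝ) / 2 ^ sj (ρ ^ 2) (t' + 1) = 4 / 2 ^ sj (ρ ^ 2) (t' + 1) + 4 / 2 ^ sj (ρ ^ 2) (t' + 1) := by ring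
    rw [h8]
    linarith

end Pool.Agent.helper90.DH
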