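import Pool.Agent.helper2.DHI.INI
import Pool.Agent.helper3.DHI.SP0
import Pool.Agent.helper15.DHI.FLS
import Pool.Agent.helper34.DHI.BPE
import Pool.Agent.helper38.DHI.QRU
import Pool.Agent.helper39.DHI.DRF
import Pool.Agent.helper39.DHI.ESI
import Pool.Agent.helper40.DHI.KRE
import Pool.Agent.helper43.DHI.DGS
import Pool.Agent.helper47.DHI.SJM
import Pool.Agent.helper59.DHI.NNM
import Pool.Agent.helper63.DHI.RTB
import Pool.Agent.helper64.DHI.BTS
import Pool.Agent.helper64.DHI.WDB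
import Pool.Agent.helper89.DHI.NUM
import Pool.Agent.helper93.DHI.SPM
import Pool.Agent.helper99.DHI.GPH
import Pool.Agent.helper90.DHI.END
import Pool.Agent.helper90.DHI.HYV
import Pool.Agent.helper90.DHI.IST
import Pool.Agent.helper90.DHI.MNH
import Pool.Agent.helper90.DHI.SPH
import Pool.Agent.helper57.D2.DIF
import Pool.Agent.helper18.DH.AllM

set_option autoImplicit false

open Filter Topology MeasureTheory
open scoped commutatorElement

namespace Pool.Agent.helper90.DH

open Pool.Agent.helper64.D2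

theorem AllI_DRF : DRF_stmt := DRF SJM

theorem AllI_DGS : DGS_stmt := DGS SJM WDB QRU AllM_BDD AllM_DST Pool.Agent.helper64.D2.DIF

/-- The stage theorem from the other parts. -/
theorem AllI_MAINH (hBAT : BAT_stmt) (hPERT : PERT_stmt) (hGALL : GALL_stmt) (hROU : ROU_stmt) (hRLC : RLC_stmt) (hRST : RST_stmt)
    (hYGEN : YGEN_stmt) (hYIN : YIN_stmt) (hFIN : FIN_stmt) : MAINH_stmt :=
  MNH BPE KRE hBAT hPERT hGALL hROU SJM NUM NNM (GPH SJM AllI_DRF) SPM (BTS SJM AllI_DRF (SPH SJM) AllI_DGS) (INI AllI_DRF SP0 (SPH SJM) AllI_DGS hRST)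
    (RTB SJM (HYV SJM AllI_DRF SPM) hRLC) (FLS SJM AllI_DRF hRLC AllM_BDD AllM_FST hYGEN) (IST SJM) (END SJM AllI_DRF ESI) hYIN hFIN

end Pool.Agent.helper90.DH
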